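import Pool.Agent.H18.VZ.Targets

set_option autoImplicit false
set_option linter.unusedVariables false

open MvPolynomial
open Pool.Agent.H12.ZD (pmap)
open Pool.Agent.H18.HIT Pool.Agent.H18.HX Pool.Agent.H18.VZ

namespace Pool.Agent.H34.VZ

theorem pf_VRG : T_VRG := by
  intro κ _
  let ι : PowerSeries κ →+* AlgebraicClosure (FractionRing (PowerSeries κ)) :=
    (algebraMap (FractionRing (PowerSeries κ))
      (AlgebraicClosure (FractionRing (PowerSeries κ)))).comp
      (algebraMap (PowerSeries κ) (FractionRing (PowerSeries κ)))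
  have hinj : Function.Injective ι := by
    intro a b hab
    exact IsFractionRing.injective (PowerSeries κ) (FractionRing (PowerSeries κ))
      ((algebraMap (FractionRing (PowerSeries κ))
        (AlgebraicClosure (FractionRing (PowerSeries κ)))).injective hab)
  obtain ⟨O, hO⟩ := (LocalSubring.range ι).exists_le_valuationSubring
  have hmr : ∀ c, ι c ∈ (LocalSubring.range ι).toSubring := fun c => ⟨c, rfl⟩
  have hmem : ∀ c, ι c ∈ O := fun c => hO.1 (hmr c)
  refine ⟨_, inferInstance, inferInstance, ι, O, hinj, hmem, ?_⟩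
  intro c c' hc' hcc
  rcases ValuationRing.dvd_total c' c with h | h
  · exact h
  · obtain ⟨d, rfl⟩ := h
    have hc : c ≠ 0 := left_ne_zero_of_mul hc'
    have hd : d ≠ 0 := right_ne_zero_of_mul hc'
    have hιc : ι c ≠ 0 := fun h => hc (hinj (by rw [h, map_zero]))
    have hιd : ι d ≠ 0 := fun h => hd (hinj (by rw [h, map_zero]))
    have h1 : ι c / ι (c * d) = (ι d)⁻¹ := by
      rw [map_mul]
      field_simp
    rw [h1] at hcc
    have h2 : IsUnit (Subring.inclusion hO.1 ⟨ι d, hmr d⟩) := by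
      refine isUnit_iff_exists_inv.2 ⟨⟨(ι d)⁻¹, hcc⟩, ?_⟩
      exact Subtype.ext (mul_inv_cancel₀ hιd)
    obtain ⟨⟨e, he⟩, hde⟩ := isUnit_iff_exists_inv.1 (hO.2.1 _ h2)
    obtain ⟨e', rfl⟩ := he
    have h3 : ι d * ι e' = 1 := congrArg Subtype.val hde
    rw [← map_mul, ← map_one ι] at h3
    have h4 := hinj h3
    refine ⟨e', ?_⟩
    rw [mul_assoc, h4, mul_one]

end Pool.Agent.H34.VZ
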